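import Pool.Agent.J6H20.IA.Fool

/-!
# One stage for two windows
-/

set_option autoImplicit false

namespace Pool.Agent.J6H20.IB

open Filter Pool.Agent.NPC Pool.Agent.H628R3.RO Pool.Agent.J6H54.RO Pool.Agent.J6H49.OP
open Pool.Agent.J6H49.AM Pool.Agent.J6H20.IA
open Pool.Agent.TH678.RS (bt)
open Pool.Agent.Y626.WX (Cp)
open Pool.Agent.J6H49.PHC (oracle)

variable {α : ℕ → ℕ} {g : ℕ → Pool.Agent.H620R2.Gauge.SAlg × Polynomial ℕ}
  {S : ℕ → Polynomial ℕ} {Φ : Oracle → Oracle}

theorem dense_ma (hc : Cp g S (bt α) Φ) (E₀ A : Oracle) {M : Alg} {p : Polynomial ℕ}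
    {n k : ℕ} (hfine : FineAt α M p n) (hadv : 3 * (p.eval n + 1 + k) ≤ 2 ^ n)
    (G : Finset (Blk n → Blk n)) (hG : G.Nonempty)
    (hGc : Fintype.card (Blk n → Blk n) ≤ 2 ^ k * G.card)
    (h : ∀ f ∈ G, AccM M p (oracle Φ E₀ (win n (fun ρ => some (f ρ)) A)) n) :
    ∃ f : Blk n → Option (Blk n), Few n (win n f A) ∧
      ∃ y : List Bool, y.length ≤ p.eval n ∧ 5 / 12 ≤ pr (p.eval n) fun r =>
        M.out (oracle Φ E₀ (win n f A)) (pairBits (List.replicate n true) (pairBits y r)) =
          some [true] := by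
  classical
  obtain ⟨u, F, T, f₀, hu, hF, hPr, hT, hag, hr⟩ := common2 hfine hadv
    (fun f u => 2 / 3 ≤ pr (p.eval n) fun r =>
      M.out (oracle Φ E₀ (win n (fun ρ => some (f ρ)) A))
        (pairBits (List.replicate n true) (pairBits u r)) = some [true]) G hG hGc h
  have hfew : Few n (win n (spw T f₀) A) := few_win (S := T) (fun ρ hρ => by
    unfold spw
    rw [if_neg hρ]) hT A
  refine ⟨spw T f₀, hfew, u, hu, ?_⟩
  set m := p.eval n with hm
  set inp : Blk m → List Bool := fun v => pairBits (List.replicate n true)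
    (pairBits u (List.ofFn v)) with hinp
  set acc : (Blk n → Blk n) → Blk m → Prop := fun f v =>
    M.out (oracle Φ E₀ (win n (fun ρ => some (f ρ)) A)) (inp v) = some [true] with hacc
  set accB : Blk m → Prop := fun v =>
    M.out (oracle Φ E₀ (win n (spw T f₀) A)) (inp v) = some [true] with haccB
  have hpos : (0 : ℝ) < 2 ^ m := by positivity
  have hFpos : (0 : ℝ) < F.card := by
    have := Finset.card_pos.2 hF
    exact_mod_cast this
  rw [pr_eq m _ accB (fun v => Iff.rfl), le_div_iff₀ hpos]
  have h2 : ∀ f ∈ F, (2 / 3 : ℝ) * 2 ^ m ≤ ((Finset.univ.filter fun v => acc f v).card : ℝ) := by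
    intro f hf
    have := hPr f hf
    rw [pr_eq m _ (acc f) (fun v => Iff.rfl), le_div_iff₀ hpos] at this
    exact this
  -- double counting
  have h4 : ∑ f ∈ F, ((Finset.univ.filter fun v => acc f v).card : ℝ) ≤
      ∑ v : Blk m, ((F.filter fun f => acc f v).card : ℝ) := by
    have e : ∑ f ∈ F, (Finset.univ.filter fun v => acc f v).card =
        ∑ v : Blk m, (F.filter fun f => acc f v).card := by
      simp only [Finset.card_filter]
      exact Finset.sum_comm
    exact_mod_cast e.le
  have h5 : ∀ v : Blk m, ((F.filter fun f => acc f v).card : ℝ) ≤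
      (if accB v then (F.card : ℝ) else 0) + F.card / 4 := by
    intro v
    have hz : (inp v).length ≤ inpL p n := length_inp hu (by rw [List.length_ofFn])
    have h6 := most_agree hc E₀ A hfine hag hr hz
    set K := F.filter fun f => M.out (oracle Φ E₀ (win n (fun ρ => some (f ρ)) A)) (inp v) ≠
      M.out (oracle Φ E₀ (win n (spw T f₀) A)) (inp v) with hK
    have h7 : 4 * K.card ≤ F.card := by
      by_contra h8
      push Not at h8
      have h9 : (M.p.eval (inpL p n) + 1) * F.card < (4 * M.p.eval (inpL p n) + 4) * K.card := by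
        have : (4 * M.p.eval (inpL p n) + 4) * K.card =
            (M.p.eval (inpL p n) + 1) * (4 * K.card) := by ring
        rw [this]
        exact Nat.mul_lt_mul_of_pos_left h8 (by omega)
      nlinarith
    have h7' : (K.card : ℝ) ≤ F.card / 4 := by
      have : (4 : ℝ) * K.card ≤ F.card := by exact_mod_cast h7
      linarith
    split_ifs with hB
    · have : ((F.filter fun f => acc f v).card : ℝ) ≤ F.card := by
        exact_mod_cast Finset.card_filter_le _ _
      linarith
    · have h8 : (F.filter fun f => acc f v) ⊆ K := by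
        intro f hf
        rw [Finset.mem_filter] at hf
        rw [hK, Finset.mem_filter]
        refine ⟨hf.1, fun he => hB ?_⟩
        show M.out (oracle Φ E₀ (win n (spw T f₀) A)) (inp v) = some [true]
        rw [← he]
        exact hf.2
      have h9 : ((F.filter fun f => acc f v).card : ℝ) ≤ K.card := by
        exact_mod_cast Finset.card_le_card h8
      linarith
  have h6 : ∑ v : Blk m, ((if accB v then (F.card : ℝ) else 0) + F.card / 4) =
      F.card * ((Finset.univ.filter fun v => accB v).card : ℝ) + 2 ^ m * (F.card / 4) := by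
    rw [Finset.sum_add_distrib, Finset.sum_const, ← Finset.sum_filter, Finset.sum_const,
      Finset.card_univ, Fintype.card_fun, Fintype.card_bool, Fintype.card_fin]
    simp only [nsmul_eq_mul]
    push_cast
    ring
  have h7 : ∑ f ∈ F, ((2 / 3 : ℝ) * 2 ^ m) ≤
      F.card * ((Finset.univ.filter fun v => accB v).card : ℝ) + 2 ^ m * (F.card / 4) := by
    rw [← h6]
    exact (Finset.sum_le_sum h2).trans (h4.trans (Finset.sum_le_sum fun v _ => h5 v))
  rw [Finset.sum_const, nsmul_eq_mul] at h7
  refine le_of_mul_le_mul_left ?_ hFpos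
  linarith

theorem win_none {n : ℕ} {B : Oracle} (hB : ∀ x : List Bool, x.length = 2 * n → B x = false)
    (f₀ : Blk n → Blk n) : win n (spw ∅ f₀) B = B := by
  classical
  funext x
  by_cases hx : x.length = 2 * n
  · unfold win
    rw [if_pos hx, hB x hx]
    simp [spw]
  · exact win_off _ B hx

theorem univ_spread {n t : ℕ} (ht : t ≤ 2 ^ n) (ρ y : Blk n) :
    t * ((Finset.univ : Finset (Blk n → Blk n)).filter fun f => f ρ = y).card ≤
      (Finset.univ : Finset (Blk n → Blk n)).card := by
  classical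
  have hcard : Fintype.card (Blk n) = 2 ^ n := by
    rw [Fintype.card_fun, Fintype.card_bool, Fintype.card_fin]
  have h1 : ((Finset.univ : Finset (Blk n → Blk n)).filter fun f => f ρ = y).card ≤
      Fintype.card (Blk n) ^ (Fintype.card (Blk n) - ({ρ} : Finset (Blk n)).card) := by
    refine card_agree fun f hf f' hf' ρ' hρ' => ?_
    rw [Finset.mem_filter] at hf hf'
    rw [Finset.mem_singleton] at hρ'
    rw [hρ', hf.2, hf'.2]
  rw [Finset.card_singleton, hcard] at h1
  have h2 : (Finset.univ : Finset (Blk n → Blk n)).card = (2 ^ n) ^ (2 ^ n) := by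
    rw [Finset.card_univ, Fintype.card_fun, hcard]
  rw [h2]
  have h3 : 0 < 2 ^ n := by positivity
  calc _ ≤ 2 ^ n * (2 ^ n) ^ (2 ^ n - 1) := Nat.mul_le_mul ht h1
    _ = (2 ^ n) ^ (2 ^ n) := by
      rw [← pow_succ']
      congr 1
      omega

/-- A full window can be added without changing the probability much. -/
theorem add_full (hc : Cp g S (bt α) Φ) (E₀ B : Oracle) {M : Alg} {p : Polynomial ℕ} {n : ℕ}
    (hfine : FineAt α M p (n + 1)) (ht : 16 * (M.p.eval (inpL p (n + 1)) + 1) ≤ 2 ^ (n + 1))
    (hB : ∀ x : List Bool, x.length = 2 * (n + 1) → B x = false) {y : List Bool}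
    (hy : y.length ≤ p.eval n) (h : 5 / 12 ≤ pr (p.eval n) fun r =>
      M.out (oracle Φ E₀ B) (pairBits (List.replicate n true) (pairBits y r)) = some [true]) :
    ∃ f : Blk (n + 1) → Blk (n + 1), 1 / 3 < pr (p.eval n) fun r =>
      M.out (oracle Φ E₀ (win (n + 1) (fun ρ => some (f ρ)) B))
        (pairBits (List.replicate n true) (pairBits y r)) = some [true] := by
  classical
  by_contra hcon
  push Not at hcon
  set m := p.eval n with hm
  set inp : Blk m → List Bool := fun v => pairBits (List.replicate n true)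
    (pairBits y (List.ofFn v)) with hinp
  set acc : (Blk (n + 1) → Blk (n + 1)) → Blk m → Prop := fun f v =>
    M.out (oracle Φ E₀ (win (n + 1) (fun ρ => some (f ρ)) B)) (inp v) = some [true] with hacc
  set accB : Blk m → Prop := fun v =>
    M.out (oracle Φ E₀ B) (inp v) = some [true] with haccB
  set F : Finset (Blk (n + 1) → Blk (n + 1)) := Finset.univ with hF
  have hpos : (0 : ℝ) < 2 ^ m := by positivity
  have hFpos : (0 : ℝ) < F.card := by
    have : 0 < F.card := Finset.card_pos.2 ⟨fun ρ => ρ, Finset.mem_univ _⟩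
    exact_mod_cast this
  rw [pr_eq m _ accB (fun v => Iff.rfl), le_div_iff₀ hpos] at h
  have h2 : ∀ f ∈ F, ((Finset.univ.filter fun v => acc f v).card : ℝ) ≤ (1 / 3 : ℝ) * 2 ^ m := by
    intro f _
    have := hcon f
    rw [pr_eq m _ (acc f) (fun v => Iff.rfl), div_le_iff₀ hpos] at this
    exact this
  have h4 : ∑ v : Blk m, ((F.filter fun f => acc f v).card : ℝ) ≤
      ∑ f ∈ F, ((Finset.univ.filter fun v => acc f v).card : ℝ) := by
    have e : ∑ f ∈ F, (Finset.univ.filter fun v => acc f v).card =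
        ∑ v : Blk m, (F.filter fun f => acc f v).card := by
      simp only [Finset.card_filter]
      exact Finset.sum_comm
    exact_mod_cast e.ge
  have hlen : inpL p n ≤ inpL p (n + 1) := by
    have := eval_mono p (show n ≤ n + 1 by omega)
    unfold inpL
    omega
  have h5 : ∀ v : Blk m, (if accB v then (F.card : ℝ) else 0) ≤
      ((F.filter fun f => acc f v).card : ℝ) + F.card / 16 := by
    intro v
    have hz : (inp v).length ≤ inpL p (n + 1) :=
      (length_inp hy (by rw [List.length_ofFn])).trans hlen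
    have h6 := most_agree hc E₀ B (t := 16 * (M.p.eval (inpL p (n + 1)) + 1)) hfine (F := F)
      (T := ∅) (f₀ := fun ρ => ρ) (fun f _ ρ hρ => by simp at hρ)
      (fun ρ _ y => univ_spread ht ρ y) hz
    rw [win_none hB] at h6
    set K := F.filter fun f => M.out (oracle Φ E₀ (win (n + 1) (fun ρ => some (f ρ)) B)) (inp v) ≠
      M.out (oracle Φ E₀ B) (inp v) with hK
    have h7 : 16 * K.card ≤ F.card := by
      by_contra h8
      push Not at h8
      have h9 : (M.p.eval (inpL p (n + 1)) + 1) * F.card <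
          16 * (M.p.eval (inpL p (n + 1)) + 1) * K.card := by
        have : 16 * (M.p.eval (inpL p (n + 1)) + 1) * K.card =
            (M.p.eval (inpL p (n + 1)) + 1) * (16 * K.card) := by ring
        rw [this]
        exact Nat.mul_lt_mul_of_pos_left h8 (by omega)
      nlinarith
    have h7' : (K.card : ℝ) ≤ F.card / 16 := by
      have : (16 : ℝ) * K.card ≤ F.card := by exact_mod_cast h7
      linarith
    split_ifs with hB'
    · have h8 : F ⊆ (F.filter fun f => acc f v) ∪ K := by
        intro f hf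
        rw [Finset.mem_union]
        by_cases h9 : M.out (oracle Φ E₀ (win (n + 1) (fun ρ => some (f ρ)) B)) (inp v) =
            M.out (oracle Φ E₀ B) (inp v)
        · left
          rw [Finset.mem_filter]
          refine ⟨hf, ?_⟩
          show M.out (oracle Φ E₀ (win (n + 1) (fun ρ => some (f ρ)) B)) (inp v) = some [true]
          rw [h9]
          exact hB'
        · right
          rw [hK, Finset.mem_filter]
          exact ⟨hf, h9⟩
      have h9 : (F.card : ℝ) ≤ ((F.filter fun f => acc f v).card : ℝ) + K.card := by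
        exact_mod_cast (Finset.card_le_card h8).trans (Finset.card_union_le _ _)
      linarith
    · positivity
  have h6 : ∑ v : Blk m, (if accB v then (F.card : ℝ) else 0) =
      F.card * ((Finset.univ.filter fun v => accB v).card : ℝ) := by
    rw [← Finset.sum_filter, Finset.sum_const, nsmul_eq_mul]
    ring
  have h7 : F.card * ((Finset.univ.filter fun v => accB v).card : ℝ) ≤
      ∑ f ∈ F, ((1 / 3 : ℝ) * 2 ^ m) + 2 ^ m * (F.card / 16) := by
    have h8 : ∑ v : Blk m, (((F.filter fun f => acc f v).card : ℝ) + F.card / 16) =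
        ∑ v : Blk m, ((F.filter fun f => acc f v).card : ℝ) + 2 ^ m * (F.card / 16) := by
      rw [Finset.sum_add_distrib, Finset.sum_const, Finset.card_univ, Fintype.card_fun,
        Fintype.card_bool, Fintype.card_fin, nsmul_eq_mul]
      push_cast
      ring
    have h9 := Finset.sum_le_sum fun v (_ : v ∈ (Finset.univ : Finset (Blk m))) => h5 v
    rw [h6, h8] at h9
    have h10 := h4.trans (Finset.sum_le_sum h2)
    linarith
  rw [Finset.sum_const, nsmul_eq_mul] at h7
  have h8 : (F.card : ℝ) * (5 / 12 * 2 ^ m) ≤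
      F.card * ((Finset.univ.filter fun v => accB v).card : ℝ) :=
    mul_le_mul_of_nonneg_left h hFpos.le
  have h9 : 0 < (F.card : ℝ) * 2 ^ m := mul_pos hFpos hpos
  nlinarith

/-- the parameters are fine for the machine, with the slack `k` -/
def Fit (α : ℕ → ℕ) (q : Alg × Polynomial ℕ) (k n : ℕ) : Prop :=
  FineAt α q.1 q.2 n ∧ 3 * (q.2.eval n + 1 + k) ≤ 2 ^ n ∧ FineAt α q.1 q.2 (n + 1) ∧
    16 * (q.1.p.eval (inpL q.2 (n + 1)) + 1) ≤ 2 ^ (n + 1)

theorem ev_fit {α : ℕ → ℕ} (hα : Monotone α) (hα' : Tendsto α atTop atTop)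
    (q : Alg × Polynomial ℕ) (k : ℕ) : ∀ᶠ n : ℕ in atTop, Fit α q k n := by
  obtain ⟨M, p⟩ := q
  set I : Polynomial ℕ := 2 * Polynomial.X + 1 + (2 * p + 1 + p) with hI
  have hIe : ∀ n, I.eval n = inpL p n := by
    intro n
    simp only [hI, inpL, Polynomial.eval_add, Polynomial.eval_mul, Polynomial.eval_ofNat,
      Polynomial.eval_X, Polynomial.eval_one]
  have h1 := (tendsto_add_atTop_nat 1).eventually (ev_fine hα hα' M p)
  have h2 := ev_fine hα hα' M (p + Polynomial.C k)
  have h3 := (tendsto_add_atTop_nat 1).eventually (le_lam hα hα' (16 * (M.p.comp I + 1)))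
  filter_upwards [ev_fine hα hα' M p, h1, h2, h3] with n h4 h5 h6 h7
  refine ⟨h4, ?_, h5, ?_⟩
  · have h8 := h6.adv
    rw [Polynomial.eval_add, Polynomial.eval_C] at h8
    show 3 * (p.eval n + 1 + k) ≤ 2 ^ n
    omega
  · have h8 := h7.trans (lam_le α (n + 1))
    simp only [Polynomial.eval_add, Polynomial.eval_mul, Polynomial.eval_ofNat,
      Polynomial.eval_comp, Polynomial.eval_one, hIe] at h8
    exact h8

/-- **The stage.** -/
theorem fool (hc : Cp g S (bt α) Φ) (E₀ A : Oracle) (a : ℕ → Alg × Polynomial ℕ)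
    {n k : ℕ} (J : Finset ℕ) (hJ : J.card ≤ 2 ^ k) (hfit : ∀ j ∈ J, Fit α (a j) k n)
    (hA : ∀ x : List Bool, x.length = 2 * (n + 1) → A x = false) :
    (∃ f : Blk n → Blk n, ∀ j ∈ J,
      ¬ AccM (a j).1 (a j).2 (oracle Φ E₀ (win n (fun ρ => some (f ρ)) A)) n) ∨
    ∃ j ∈ J, ∃ (f : Blk n → Option (Blk n)) (f' : Blk (n + 1) → Blk (n + 1)),
      Few n (win n f A) ∧ AccW (a j).1 (a j).2
        (oracle Φ E₀ (win (n + 1) (fun ρ => some (f' ρ)) (win n f A))) n := by
  classical
  by_contra hcon
  rw [not_or] at hcon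
  obtain ⟨h1, h2⟩ := hcon
  push Not at h1
  choose u hu1 hu2 using h1
  obtain ⟨j, hj, hne, hcard⟩ := pigeon2 (Finset.univ : Finset (Blk n → Blk n))
    ⟨fun _ => fun _ => false, Finset.mem_univ _⟩ u J (fun f _ => hu1 f)
  apply h2
  obtain ⟨h3, h4, h5, h6⟩ := hfit j hj
  obtain ⟨f, hf1, y, hy, hf2⟩ := dense_ma hc E₀ A h3 h4 _ hne (by
    rw [Finset.card_univ] at hcard
    exact hcard.trans (Nat.mul_le_mul_right _ hJ)) (fun f hf => by
      have h3 := (Finset.mem_filter.1 hf).2
      have h4 := hu2 f
      rwa [h3] at h4)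
  obtain ⟨f', hf'⟩ := add_full hc E₀ (win n f A) h5 h6 (fun x hx => by
    rw [win_off f A (by omega)]
    exact hA x hx) hy hf2
  exact ⟨j, hj, f, f', hf1, y, hy, hf'⟩

end Pool.Agent.J6H20.IB
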