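import Pool.Agent.J6H20.IB.Stage
import Pool.Agent.J6H20.IA.Main

/-!
# A set in `AM ∩ coAM` which is immune for `MA`
-/

set_option autoImplicit false

namespace Pool.Agent.J6H20.IB

open Filter Pool.Agent.NPC Pool.Agent.H628R3.RO Pool.Agent.J6H54.RO Pool.Agent.J6H49.OP
open Pool.Agent.J6H49.AM
open Pool.Agent.J6H20.IA (AccM AccW ones mem_ones rep_inj)
open Pool.Agent.TH678.GC (join)
open Pool.Agent.TH678.RS (bt)
open Pool.Agent.Y626.WX (Cp exists_cp)
open Pool.Agent.J6H49.PHC (oracle)
open Pool.Agent.J6H20.IM (Immune)

/-- `AM` is closed under maps which prescribe the length, restricted by a test. -/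
theorem isAM_pre {B : Oracle} {L : Set (List Bool)} (h : IsAM B L) {f : List Bool → List Bool}
    (hf : Poly f) {q : Polynomial ℕ} (hq : ∀ x, (f x).length = q.eval x.length)
    {t : List Bool → Prop} [DecidablePred t] (ht : Poly (fun x => decide (t x))) (b : Bool) :
    IsAM B {x | (t x ∧ f x ∈ L) ∨ (¬ t x ∧ b = true)} := by
  obtain ⟨V, p, hV, hx⟩ := h
  have hp1 : Poly (fun z : List Bool => (unpair z).1) := Poly.fst poly_unpair
  have hp2 : Poly (fun z : List Bool => (unpair z).2) := Poly.snd poly_unpair
  have h1 : IsFP B (fun z => if t (unpair z).1 then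
      V (pairBits (f (unpair z).1) (unpair z).2) else [b]) := by
    have h2 : IsFP B (fun z => V (pairBits (f (unpair z).1) (unpair z).2)) :=
      IsFP.comp hV (IsFP.of_poly (Pool.Agent.H622R2.poly_pairBits (hf.comp hp1) hp2))
    have h3 := IsFP.pair (IsFP.of_poly (A := B) Poly.id) h2
    have h4 : Poly (fun u : List Bool => if t (unpair (unpair u).1).1 then (unpair u).2
        else [b]) := by
      have hu1 : Poly (fun u : List Bool => (unpair (unpair u).1).1) := hp1.comp hp1
      exact Poly.ite (ht.comp hu1) hp2 (NPC.Poly.const _)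
    have h5 := IsFP.comp (IsFP.of_poly (A := B) h4) h3
    simpa only [unpair_pairBits] using h5
  refine ⟨_, p.comp q, h1, fun x => ?_⟩
  simp only [unpair_pairBits, Polynomial.eval_comp, ← hq, Set.mem_ofPred_eq]
  by_cases htx : t x
  · simp only [htx, true_and, not_true_eq_false, false_and, or_false, if_true]
    exact hx (f x)
  · simp only [htx, false_and, not_false_eq_true, true_and, false_or, if_false]
    cases b
    · refine ⟨fun h => absurd h (by simp), fun _ => ?_⟩
      have h3 : (pr (p.eval (f x).length) fun r => ∃ y : List Bool,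
          y.length ≤ p.eval (f x).length ∧ [false] = [true]) = 0 := by
        unfold pr
        simp
      rw [h3]
      norm_num
    · refine ⟨fun _ => ?_, fun h => absurd rfl h⟩
      have h3 : (pr (p.eval (f x).length) fun r => ∃ y : List Bool,
          y.length ≤ p.eval (f x).length ∧ [true] = [true]) = 1 := by
        have h4 : ∃ y : List Bool, y.length ≤ p.eval (f x).length := ⟨[], Nat.zero_le _⟩
        unfold pr
        simp only [and_true, h4, Finset.filter_true, Finset.card_univ, Fintype.card_fun,
          Fintype.card_bool, Fintype.card_fin]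
        push_cast
        exact div_self (by positivity)
      rw [h3]
      norm_num

/-- the test: a string of ones of even length -/
def tst (x : List Bool) : Prop := x = List.replicate x.length true ∧ Even x.length

instance : DecidablePred tst := fun x => by unfold tst; infer_instance

theorem poly_tst : Poly (fun x => decide (tst x)) := by
  have h1 : Poly (fun x : List Bool => decide (x = List.replicate x.length true)) :=
    NPC.Poly.decide_eq Poly.id (p_replicate (UPoly.length Poly.id) true)
  have h3 : Poly (fun x : List Bool => x.length % 2) :=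
    Poly.mod (Poly.length Poly.id) (NPC.Poly.const 2)
  have h2 : Poly (fun x : List Bool => decide (x.length % 2 = 0)) :=
    NPC.Poly.decide_eq h3 (NPC.Poly.const 0)
  refine (Poly.and h1 h2).congr fun x => ?_
  unfold tst
  rw [Bool.eq_iff_iff]
  simp only [Bool.and_eq_true, decide_eq_true_eq, Nat.even_iff]

/-- the language -/
def LE (A : Oracle) : Set (List Bool) := {x | tst x ∧ x ∈ LL A}

theorem isAM_LE {Φ : Oracle → Oracle} (E₀ : Oracle) {A : Oracle} (hA : ∀ n, Even n → Pm n A) :
    IsAM (oracle Φ E₀ A) (LE A) ∧ IsAM (oracle Φ E₀ A) (LE A)ᶜ := by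
  have hLg : ∀ n, Lg n A := by
    intro n
    rcases Nat.even_or_odd n with hn | ⟨m, hm⟩
    · rcases hA n hn with h | h
      · exact Or.inl h.1
      · exact Or.inr h.1
    · subst hm
      rcases hA (2 * m) (even_two_mul m) with h | h
      · exact Or.inr h.2
      · exact Or.inl h.2
  have hLL := isAM_LL (Φ := Φ) E₀ hLg
  constructor
  · have h := isAM_pre hLL Poly.id (q := Polynomial.X) (fun x => by rw [Polynomial.eval_X])
      poly_tst false
    have e : {x : List Bool | (tst x ∧ x ∈ LL A) ∨ (¬ tst x ∧ false = true)} = LE A := by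
      ext x
      simp only [LE, Set.mem_ofPred_eq, Bool.false_eq_true, and_false, or_false]
    rw [← e]
    exact h
  · have h := isAM_pre hLL (f := fun x => x ++ [true])
      (Poly.append Poly.id (NPC.Poly.const [true]))
      (q := Polynomial.X + 1) (fun x => by
        rw [Polynomial.eval_add, Polynomial.eval_X, Polynomial.eval_one, List.length_append,
          List.length_singleton]) poly_tst true
    have e : {x : List Bool | (tst x ∧ x ++ [true] ∈ LL A) ∨ (¬ tst x ∧ true = true)} =
        (LE A)ᶜ := by
      ext x
      simp only [LE, LL, Set.mem_ofPred_eq, Set.mem_compl_iff, and_true, List.length_append,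
        List.length_singleton]
      by_cases hx : tst x
      · have h1 := hA x.length hx.2
        simp only [hx, true_and, not_true_eq_false, or_false]
        constructor
        · intro h2 h3
          rcases h1 with h1 | h1
          · exact not_full_of_few h1.2 h2
          · exact not_full_of_few h1.1 h3
        · intro h2
          rcases h1 with h1 | h1
          · exact absurd h1.1 h2
          · exact h1.2
      · simp only [hx, false_and, not_false_eq_true, or_true]
    rw [← e]
    exact h

instance : Nonempty (Alg × Polynomial ℕ) := ⟨(⟨fun x => x, polyTime_id, 0⟩, 0)⟩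

/-- **The main theorem.** -/
theorem main (α : ℕ → ℕ) (hα : Monotone α) (hα' : Tendsto α atTop atTop) (C : Oracle) :
    ∃ O : Oracle, NearlyCollapsed α O ∧ Contains O C ∧
      ∃ L : Set (List Bool), L ⊆ ones ∧ IsAM O L ∧ IsAM O Lᶜ ∧ Immune (IsMA O) L := by
  obtain ⟨g, hg⟩ := Pool.Agent.H620R2.Gauge.CC.exists_enum
  obtain ⟨S, Φ, hc⟩ := exists_cp g (bt (slow2 α))
  obtain ⟨a, ha⟩ := exists_surjective_nat (Alg × Polynomial ℕ)
  obtain ⟨A, hA1, hA2, hA3⟩ := exists_limit (slow2_mono hα) (slow2_tendsto hα') hc C a
  have hmem : ∀ n, List.replicate n true ∈ LE A ↔ Even n ∧ Full n A := by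
    intro n
    constructor
    · rintro ⟨⟨-, h1⟩, h2⟩
      have h3 : Full (List.replicate n true).length A := h2
      rw [List.length_replicate] at h1 h3
      exact ⟨h1, h3⟩
    · rintro ⟨h1, h2⟩
      refine ⟨⟨?_, ?_⟩, ?_⟩
      · rw [List.length_replicate]
      · rwa [List.length_replicate]
      · show Full (List.replicate n true).length A
        rwa [List.length_replicate]
  have hsub : LE A ⊆ ones := fun x hx => mem_ones.2 hx.1.1
  have hinf : (LE A).Infinite := by
    have h1 : {n : ℕ | Even n ∧ Full n A}.Infinite :=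
      Set.infinite_of_forall_exists_gt fun b => by
        obtain ⟨n, h1, h2⟩ := hA2 b
        exact ⟨n, h2, h1⟩
    intro hf
    refine h1 ((hf.preimage (f := fun n => List.replicate n true)
      fun i _ j _ hij => rep_inj hij).subset fun n hn => ?_)
    exact (hmem n).2 hn
  obtain ⟨h1, h2⟩ := isAM_LE (Φ := Φ) C hA1
  refine ⟨oracle Φ C A, nearly hg hα hc (join A C), ⟨[false, true], fun x => rfl⟩,
    LE A, hsub, h1, h2, hinf, ?_⟩
  rintro T hT ⟨V, p, ⟨M, hM⟩, hx⟩
  have hacw : ∀ n, AccW M p (oracle Φ C A) n → List.replicate n true ∈ T := by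
    rintro n ⟨y, h1, h2⟩
    by_contra hcon
    have h3 := (hx (List.replicate n true)).2 hcon y (by rwa [List.length_replicate])
    simp only [hM, Option.some.injEq] at h2
    rw [List.length_replicate] at h3
    linarith
  have hacc : ∀ n, List.replicate n true ∈ T → AccM M p (oracle Φ C A) n := by
    intro n h
    obtain ⟨y, h1, h2⟩ := (hx (List.replicate n true)).1 h
    rw [List.length_replicate] at h1 h2
    refine ⟨y, h1, ?_⟩
    simp only [hM, Option.some.injEq]
    exact h2
  obtain ⟨j, hj⟩ := ha (M, p)
  have h3 := hA3 j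
  rw [hj] at h3
  rcases h3 with ⟨n, h4, h5⟩ | ⟨n₀, h4⟩
  · exact absurd ((hmem n).1 (hT (hacw n h5))).2 h4
  · refine ((Set.finite_le_nat n₀).image fun n => List.replicate n true).subset ?_
    intro x hx
    obtain ⟨n, rfl⟩ := hsub (hT hx)
    refine ⟨n, ?_, rfl⟩
    by_contra hn
    have h5 := (hmem n).1 (hT hx)
    exact h4 n (not_le.1 hn) h5.1 h5.2 (hacc n hx)

end Pool.Agent.J6H20.IB
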