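import Pool.Agent.J6H20.IB.Fool
import Pool.Agent.J6H20.IA.Stage

/-!
# The finite extension argument for two windows
-/

set_option autoImplicit false

namespace Pool.Agent.J6H20.IB

open Filter Pool.Agent.NPC Pool.Agent.H628R3.RO Pool.Agent.J6H54.RO Pool.Agent.J6H49.OP
open Pool.Agent.J6H49.AM
open Pool.Agent.J6H20.IA (AccM AccW accM_loc accW_loc)
open Pool.Agent.TH678.RS (bt)
open Pool.Agent.Y626.WX (Cp)
open Pool.Agent.J6H49.PHC (oracle)

/-- the radius of locality -/
noncomputable def rad (q : Alg × Polynomial ℕ) (n : ℕ) : ℕ :=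
  2 * n + (qb q.1).eval (inpL q.2 n)

variable {α : ℕ → ℕ} {g : ℕ → Pool.Agent.H620R2.Gauge.SAlg × Polynomial ℕ}
  {S : ℕ → Polynomial ℕ} {Φ : Oracle → Oracle}

open Classical in
/-- the default oracle -/
noncomputable def dflt : Oracle := fun x =>
  decide (∃ n, Even n ∧ ∃ ρ : Blk (n + 1), x = str2 ρ fun _ => false)

theorem full_dflt {n : ℕ} (hn : Even n) {A : Oracle}
    (h : ∀ x : List Bool, x.length = 2 * (n + 1) → A x = dflt x) : Full (n + 1) A := by
  classical
  intro ρ
  refine ⟨fun _ => false, ?_⟩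
  rw [h _ (length_str2 _ _)]
  unfold dflt
  exact decide_eq_true ⟨n, hn, ρ, rfl⟩

theorem dflt_even {n : ℕ} (hn : Even n) {x : List Bool} (hx : x.length = 2 * n) :
    dflt x = false := by
  classical
  unfold dflt
  refine decide_eq_false ?_
  rintro ⟨n', hn', ρ, rfl⟩
  rw [length_str2] at hx
  obtain ⟨a, ha⟩ := hn
  obtain ⟨b, hb⟩ := hn'
  omega

theorem few_of_false {n : ℕ} {A : Oracle}
    (h : ∀ x : List Bool, x.length = 2 * n → A x = false) : Few n A := by
  classical
  unfold Few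
  have e : (Finset.univ.filter fun ρ : Blk n => ∃ y : Blk n, A (str2 ρ y) = true) = ∅ := by
    rw [Finset.filter_eq_empty_iff]
    rintro ρ - ⟨y, hy⟩
    rw [h _ (length_str2 _ _)] at hy
    simp at hy
  rw [e]
  simp

theorem few_dflt {n : ℕ} (hn : Even n) {A : Oracle}
    (h : ∀ x : List Bool, x.length = 2 * n → A x = dflt x) : Few n A :=
  few_of_false fun x hx => by rw [h x hx, dflt_even hn hx]

/-- the promise for the even number `n` -/
def Pm (n : ℕ) (A : Oracle) : Prop :=
  (Full n A ∧ Few (n + 1) A) ∨ (Few n A ∧ Full (n + 1) A)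

theorem pm_congr {n : ℕ} {A A' : Oracle}
    (h : ∀ x : List Bool, x.length = 2 * n → A x = A' x)
    (h' : ∀ x : List Bool, x.length = 2 * (n + 1) → A x = A' x) : Pm n A ↔ Pm n A' := by
  unfold Pm
  rw [full_congr h, full_congr h', few_congr h, few_congr h']

theorem pm_dflt {n : ℕ} (hn : Even n) {A : Oracle}
    (h : ∀ x : List Bool, x.length = 2 * n → A x = dflt x)
    (h' : ∀ x : List Bool, x.length = 2 * (n + 1) → A x = dflt x) : Pm n A :=
  Or.inr ⟨few_dflt hn h, full_dflt hn h'⟩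

/-- the oracle satisfies the promise and is the default beyond the length `ℓ` -/
def Good (A : Oracle) (ℓ : ℕ) : Prop :=
  (∀ n, Even n → Pm n A) ∧ ∀ x : List Bool, ℓ < x.length → A x = dflt x

theorem good_dflt : Good dflt 0 :=
  ⟨fun _ hn => pm_dflt hn (fun _ _ => rfl) fun _ _ => rfl, fun _ _ => rfl⟩

theorem good_of {n ℓ ℓ' : ℕ} {A B : Oracle} (h : Good A ℓ) (hn : ℓ < n) (hev : Even n)
    (hℓ : 2 * (n + 1) ≤ ℓ') (hB : Pm n B)
    (hAB : ∀ x : List Bool, x.length ≠ 2 * n → x.length ≠ 2 * (n + 1) → B x = A x) :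
    Good B ℓ' := by
  refine ⟨fun n' hn' => ?_, fun x hx => ?_⟩
  · by_cases h' : n' = n
    · rw [h']
      exact hB
    · obtain ⟨a, ha⟩ := hev
      obtain ⟨b, hb⟩ := hn'
      refine (pm_congr (fun x hx => ?_) fun x hx => ?_).1 (h.1 n' ⟨b, hb⟩)
      · exact (hAB x (by omega) (by omega)).symm
      · exact (hAB x (by omega) (by omega)).symm
  · rw [hAB x (by omega) (by omega)]
    exact h.2 x (by omega)

/-- the machine `q` is dead: it does not reject a string which is not in the language -/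
def Kill (Φ : Oracle → Oracle) (E₀ : Oracle) (q : Alg × Polynomial ℕ) (A : Oracle)
    (ℓ : ℕ) : Prop :=
  ∃ n, rad q n ≤ ℓ ∧ ¬ Full n A ∧ AccW q.1 q.2 (oracle Φ E₀ A) n

theorem Kill.mono (hc : Cp g S (bt α) Φ) {E₀ : Oracle} {q : Alg × Polynomial ℕ}
    {A A' : Oracle} {ℓ ℓ' : ℕ} (h : Kill Φ E₀ q A ℓ)
    (hA : ∀ x : List Bool, x.length ≤ ℓ → A' x = A x) (hℓ : ℓ ≤ ℓ') : Kill Φ E₀ q A' ℓ' := by
  obtain ⟨n, h1, h2, h3⟩ := h
  refine ⟨n, h1.trans hℓ, ?_, ?_⟩
  · rwa [full_congr fun x hx => hA x (by unfold rad at h1; omega)]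
  · rwa [accW_loc hc E₀ fun x hx => hA x (hx.trans h1)]

theorem stage (hα : Monotone α) (hα' : Tendsto α atTop atTop) (hc : Cp g S (bt α) Φ)
    (E₀ : Oracle) (a : ℕ → Alg × Polynomial ℕ) (k : ℕ) :
    ∀ (d : ℕ) (A : Oracle) (ℓ : ℕ) (K : Finset ℕ), Good A ℓ →
      (∀ j ∈ K, Kill Φ E₀ (a j) A ℓ) → (Finset.range k \ K).card ≤ d →
      ∃ (A' : Oracle) (ℓ' : ℕ) (K' : Finset ℕ), ℓ < ℓ' ∧
        (∀ x : List Bool, x.length ≤ ℓ → A' x = A x) ∧ Good A' ℓ' ∧ K ⊆ K' ∧
        (∀ j ∈ K', Kill Φ E₀ (a j) A' ℓ') ∧ ∃ m, Even m ∧ ℓ < m ∧ 2 * m ≤ ℓ' ∧ Full m A' ∧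
          (∀ n, Even n → ℓ < 2 * n → Full n A' → n = m) ∧
          ∀ j < k, j ∉ K' → rad (a j) m ≤ ℓ' ∧
            ¬ AccM (a j).1 (a j).2 (oracle Φ E₀ A') m := by
  classical
  intro d
  induction d with
  | zero =>
    intro A ℓ K hA hK hd
    obtain ⟨n, hn, hev⟩ : ∃ n, ℓ < n ∧ Even n := ⟨2 * (ℓ + 1), by omega, even_two_mul _⟩
    have hJ : Finset.range k \ K = ∅ := Finset.card_eq_zero.1 (by omega)
    set A₀ := win (n + 1) (fun _ => none) A with hA₀
    have hA₀f : ∀ x : List Bool, x.length = 2 * (n + 1) → A₀ x = false := by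
      intro x hx
      rw [hA₀]
      unfold win
      rw [if_pos hx]
      simp
    set B := win n (fun ρ => some (id ρ)) A₀ with hB
    have hBA : ∀ x : List Bool, x.length ≠ 2 * n → x.length ≠ 2 * (n + 1) → B x = A x := by
      intro x h1 h2
      rw [hB, win_off _ A₀ h1, hA₀, win_off _ A h2]
    have hpm : Pm n B := Or.inl ⟨full_win _ A₀, few_of_false fun x hx => by
      rw [hB, win_off _ A₀ (by omega)]
      exact hA₀f x hx⟩
    refine ⟨B, 2 * (n + 1), K, by omega, fun x hx => hBA x (by omega) (by omega),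
      good_of hA hn hev le_rfl hpm hBA, subset_rfl, fun j hj => ?_, n, hev, hn, by omega,
      full_win _ A₀, fun n' hev' h1 h2 => ?_, fun j hj hjK => ?_⟩
    · exact (hK j hj).mono hc (fun x hx => hBA x (by omega) (by omega)) (by omega)
    · by_contra hne
      obtain ⟨c, hc'⟩ := hev
      obtain ⟨b, hb⟩ := hev'
      refine not_full_of_few (few_dflt ⟨b, hb⟩ fun x hx => ?_) h2
      rw [hBA x (by omega) (by omega)]
      exact hA.2 x (by omega)
    · exfalso
      have : j ∈ Finset.range k \ K := Finset.mem_sdiff.2 ⟨Finset.mem_range.2 hj, hjK⟩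
      rw [hJ] at this
      simp at this
  | succ d ih =>
    intro A ℓ K hA hK hd
    set J := Finset.range k \ K with hJ
    have hev1 : ∀ᶠ n in atTop, ∀ j ∈ J, Fit α (a j) k n :=
      (Filter.eventually_all_finset J).2 fun j _ => ev_fit hα hα' (a j) k
    obtain ⟨n₀, hn₀⟩ := eventually_atTop.1 hev1
    obtain ⟨n, hn, hev, hfit⟩ : ∃ n, ℓ < n ∧ Even n ∧ ∀ j ∈ J, Fit α (a j) k n :=
      ⟨2 * (ℓ + n₀ + 1), by omega, even_two_mul _, hn₀ _ (by omega)⟩
    have hJk : J.card ≤ 2 ^ k := by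
      refine (Finset.card_le_card Finset.sdiff_subset).trans ?_
      rw [Finset.card_range]
      exact Nat.lt_two_pow_self.le
    set A₀ := win (n + 1) (fun _ => none) A with hA₀
    have hA₀f : ∀ x : List Bool, x.length = 2 * (n + 1) → A₀ x = false := by
      intro x hx
      rw [hA₀]
      unfold win
      rw [if_pos hx]
      simp
    rcases fool hc E₀ A₀ a J hJk hfit hA₀f with ⟨f, hf⟩ | ⟨j₀, hj₀, f, f', hf1, hf2⟩
    · set B := win n (fun ρ => some (f ρ)) A₀ with hB
      have hBA : ∀ x : List Bool, x.length ≠ 2 * n → x.length ≠ 2 * (n + 1) → B x = A x := by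
        intro x h1 h2
        rw [hB, win_off _ A₀ h1, hA₀, win_off _ A h2]
      have hpm : Pm n B := Or.inl ⟨full_win _ A₀, few_of_false fun x hx => by
        rw [hB, win_off _ A₀ (by omega)]
        exact hA₀f x hx⟩
      set ℓ' := 2 * (n + 1) + ∑ j ∈ Finset.range k, rad (a j) n with hℓ'
      refine ⟨B, ℓ', K, by omega, fun x hx => hBA x (by omega) (by omega),
        good_of hA hn hev (by omega) hpm hBA, subset_rfl, fun j hj => ?_, n, hev, hn,
        by omega, full_win _ A₀, fun n' hev' h1 h2 => ?_, fun j hj hjK => ⟨?_, ?_⟩⟩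
      · exact (hK j hj).mono hc (fun x hx => hBA x (by omega) (by omega)) (by omega)
      · by_contra hne
        obtain ⟨c, hc'⟩ := hev
        obtain ⟨b, hb⟩ := hev'
        refine not_full_of_few (few_dflt ⟨b, hb⟩ fun x hx => ?_) h2
        rw [hBA x (by omega) (by omega)]
        exact hA.2 x (by omega)
      · have h1 : rad (a j) n ≤ ∑ j ∈ Finset.range k, rad (a j) n :=
          Finset.single_le_sum (f := fun j => rad (a j) n) (fun _ _ => Nat.zero_le _)
            (Finset.mem_range.2 hj)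
        omega
      · exact hf j (Finset.mem_sdiff.2 ⟨Finset.mem_range.2 hj, hjK⟩)
    · have hj₀' := Finset.mem_sdiff.1 hj₀
      set B := win (n + 1) (fun ρ => some (f' ρ)) (win n f A₀) with hB
      have hBA : ∀ x : List Bool, x.length ≠ 2 * n → x.length ≠ 2 * (n + 1) → B x = A x := by
        intro x h1 h2
        rw [hB, win_off _ _ h2, win_off _ A₀ h1, hA₀, win_off _ A h2]
      have hfewB : Few n B := (few_congr fun x hx => by
        rw [hB, win_off _ (win n f A₀) (by omega)]).2 hf1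
      have hpm : Pm n B := Or.inr ⟨hfewB, full_win _ _⟩
      set ℓ₁ := 2 * (n + 1) + rad (a j₀) n with hℓ₁
      obtain ⟨A', ℓ', K', h1, h2, h3, h4, h5, m, h6, h6a, h6', h7, h8, h9⟩ :=
        ih B ℓ₁ (insert j₀ K) (good_of hA hn hev (by omega) hpm hBA)
          (fun j hj => by
            rcases Finset.mem_insert.1 hj with rfl | hj
            · exact ⟨n, by omega, not_full_of_few hfewB, hf2⟩
            · exact (hK j hj).mono hc (fun x hx => hBA x (by omega) (by omega)) (by omega)) (by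
            have e : Finset.range k \ insert j₀ K = J.erase j₀ := by
              ext i
              simp only [hJ, Finset.mem_sdiff, Finset.mem_insert, Finset.mem_erase,
                Finset.mem_range]
              tauto
            rw [e, Finset.card_erase_of_mem hj₀]
            omega)
      refine ⟨A', ℓ', K', by omega, fun x hx => ?_, h3,
        (Finset.subset_insert _ _).trans h4, h5, m, h6, by omega, h6', h7,
        fun n' hev' h10 h11 => ?_, h9⟩
      · rw [h2 x (by omega), hBA x (by omega) (by omega)]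
      · by_cases h12 : ℓ₁ < 2 * n'
        · exact h8 n' hev' h12 h11
        · exfalso
          have h13 : Full n' B := (full_congr fun x hx => (h2 x (by omega))).1 h11
          by_cases hne : n' = n
          · subst hne
            exact not_full_of_few hfewB h13
          · obtain ⟨c, hc'⟩ := hev
            obtain ⟨b, hb⟩ := hev'
            refine not_full_of_few (few_dflt ⟨b, hb⟩ fun x hx => ?_) h13
            rw [hBA x (by omega) (by omega)]
            exact hA.2 x (by omega)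

/-- **The limit.** -/
theorem exists_limit (hα : Monotone α) (hα' : Tendsto α atTop atTop) (hc : Cp g S (bt α) Φ)
    (E₀ : Oracle) (a : ℕ → Alg × Polynomial ℕ) :
    ∃ A : Oracle, (∀ n, Even n → Pm n A) ∧ (∀ b, ∃ n, b < n ∧ Even n ∧ Full n A) ∧
      ∀ j, (∃ n, ¬ Full n A ∧ AccW (a j).1 (a j).2 (oracle Φ E₀ A) n) ∨
        ∃ n₀, ∀ n, n₀ < n → Even n → Full n A →
          ¬ AccM (a j).1 (a j).2 (oracle Φ E₀ A) n := by
  classical
  let St : Type := {s : Oracle × ℕ × Finset ℕ // Good s.1 s.2.1 ∧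
    ∀ j ∈ s.2.2, Kill Φ E₀ (a j) s.1 s.2.1}
  have hstep : ∀ (k : ℕ) (s : St), ∃ s' : St, s.1.2.1 < s'.1.2.1 ∧
      (∀ x : List Bool, x.length ≤ s.1.2.1 → s'.1.1 x = s.1.1 x) ∧ s.1.2.2 ⊆ s'.1.2.2 ∧
      ∃ m, Even m ∧ s.1.2.1 < m ∧ 2 * m ≤ s'.1.2.1 ∧ Full m s'.1.1 ∧
        (∀ n, Even n → s.1.2.1 < 2 * n → Full n s'.1.1 → n = m) ∧
        ∀ j < k, j ∉ s'.1.2.2 → rad (a j) m ≤ s'.1.2.1 ∧
          ¬ AccM (a j).1 (a j).2 (oracle Φ E₀ s'.1.1) m := by
    intro k s
    obtain ⟨A', ℓ', K', h1, h2, h3, h4, h5, h6⟩ :=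
      stage hα hα' hc E₀ a k _ s.1.1 s.1.2.1 s.1.2.2 s.2.1 s.2.2 le_rfl
    exact ⟨⟨(A', ℓ', K'), h3, h5⟩, h1, h2, h4, h6⟩
  choose nx hnx1 hnx2 hnx3 mm hm0 hm1 hm2 hm3 hm4 hm5 using hstep
  let s : ℕ → St := fun i => Nat.rec ⟨(dflt, 0, ∅), good_dflt, fun _ h => by simp at h⟩
    (fun i s => nx i s) i
  have hs : ∀ i, s (i + 1) = nx i (s i) := fun i => rfl
  have hl : ∀ i, i ≤ (s i).1.2.1 := by
    intro i
    induction i with
    | zero => exact Nat.zero_le _
    | succ i ih =>
      have := hnx1 i (s i)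
      rw [hs]
      omega
  have hmono : ∀ i j, i ≤ j → (s i).1.2.1 ≤ (s j).1.2.1 := by
    intro i j hij
    induction j, hij using Nat.le_induction with
    | base => exact le_rfl
    | succ j hj ih =>
      have := hnx1 j (s j)
      rw [hs]
      omega
  have hag : ∀ i j, i ≤ j → ∀ x : List Bool, x.length ≤ (s i).1.2.1 →
      (s j).1.1 x = (s i).1.1 x := by
    intro i j hij x hx
    induction j, hij using Nat.le_induction with
    | base => rfl
    | succ j hj ih =>
      rw [hs, hnx2 j (s j) x (hx.trans (hmono i j hj)), ih]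
  have key : ∀ i (x : List Bool), x.length ≤ (s i).1.2.1 → (s x.length).1.1 x = (s i).1.1 x := by
    intro i x hx
    rcases le_total x.length i with h | h
    · exact (hag _ _ h x (hl _)).symm
    · exact hag _ _ h x hx
  set A : Oracle := fun x => (s x.length).1.1 x with hAdef
  have keyA : ∀ i (x : List Bool), x.length ≤ (s i).1.2.1 → A x = (s i).1.1 x := key
  refine ⟨A, fun n hn => ?_, fun b => ?_, fun j => ?_⟩
  · have h1 := hl (2 * (n + 1))
    refine (pm_congr (fun x hx => ?_) fun x hx => ?_).1 ((s (2 * (n + 1))).2.1.1 n hn)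
    · exact (keyA (2 * (n + 1)) x (by omega)).symm
    · exact (keyA (2 * (n + 1)) x (by omega)).symm
  · refine ⟨mm b (s b), (hl b).trans_lt (hm1 b (s b)), hm0 b (s b), ?_⟩
    refine (full_congr fun x hx => ?_).1 (hm3 b (s b))
    have h1 := hm2 b (s b)
    rw [← hs] at h1 ⊢
    exact (keyA (b + 1) x (by omega)).symm
  · by_cases hj : ∃ i, j ∈ (s i).1.2.2
    · left
      obtain ⟨i, hi⟩ := hj
      obtain ⟨n, -, h2, h3⟩ := ((s i).2.2 j hi).mono hc (A' := A) (fun x hx => keyA i x hx) le_rfl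
      exact ⟨n, h2, h3⟩
    · right
      push Not at hj
      refine ⟨(s (j + 1)).1.2.1, fun n hn hev hfull hacc => ?_⟩
      -- the stage of `n`
      have hex : ∃ i, 2 * n ≤ (s (i + 1)).1.2.1 := ⟨2 * n, (by
        have := hl (2 * n + 1)
        omega)⟩
      obtain ⟨i, h1, h2⟩ : ∃ i, 2 * n ≤ (s (i + 1)).1.2.1 ∧ (s i).1.2.1 < 2 * n := by
        refine ⟨Nat.find hex, Nat.find_spec hex, ?_⟩
        rcases Nat.eq_zero_or_pos (Nat.find hex) with h0 | h0
        · rw [h0]
          have : (s 0).1.2.1 = 0 := rfl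
          omega
        · have h3 := Nat.find_min hex (m := Nat.find hex - 1) (by omega)
          rw [Nat.sub_add_cancel h0] at h3
          omega
      have hji : j < i := by
        by_contra hcon
        have := hmono (i + 1) (j + 1) (by omega)
        omega
      have hf : Full n (s (i + 1)).1.1 :=
        (full_congr fun x hx => keyA (i + 1) x (by omega)).1 hfull
      have hnm : n = mm i (s i) := hm4 i (s i) n hev h2 hf
      obtain ⟨h3, h4⟩ := hm5 i (s i) j hji (hj (i + 1))
      rw [← hnm, ← hs] at h3 h4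
      exact h4 ((accM_loc hc E₀ fun x hx => keyA (i + 1) x (hx.trans h3)).1 hacc)

end Pool.Agent.J6H20.IB
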